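import Pool.Agent.Helper86.TK.Defs

/-!
# MP_5c2ead_an, module INX
-/

set_option autoImplicit false

open Set Filter Topology

namespace Pool.Agent.Helper86.TK

noncomputable section

open Classical in
/-- one block: the difference between `S` and its finite part is small -/
theorem inx_block (h : ST_SVAL) {Γ : Type} {r : Γ → ℕ → Bool} {η : Γ → ℝ} (hη : Par r η)
    {G : Set Γ} {f : Γ → ℕ} (hS : Sep r G f) (a : Γ → ℝ) (F : Finset Γ) {ε : ℝ} (hε : 0 ≤ ε)
    (ha : ∀ x, x ∉ F → |a x| ≤ ε) (t : T) :
    |S r η G f a t - ∑ x ∈ F with x ∈ G, a x * η x * ind (r x) (f x) t| ≤ ε := by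
  rcases h Γ r η G f hS t with ⟨x0, hx0, hi, hv⟩ | ⟨hi, hv⟩
  · rw [hv a]
    have hother : ∀ x ∈ G, x ≠ x0 → ind (r x) (f x) t = 0 := by
      intro x hx hne
      have h1 := hS x hx x0 hx0 hne t
      rw [hi, mul_one] at h1
      exact h1
    by_cases hF : x0 ∈ F
    · rw [Finset.sum_eq_single_of_mem x0 (Finset.mem_filter.2 ⟨hF, hx0⟩)]
      · rw [hi, mul_one, sub_self, abs_zero]
        exact hε
      · intro x hx hne
        rw [hother x (Finset.mem_filter.1 hx).2 hne, mul_zero]
    · rw [Finset.sum_eq_zero]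
      · rw [sub_zero, abs_mul, abs_of_pos (hη.2 x0).1]
        calc |a x0| * η x0 ≤ ε * 1 :=
              mul_le_mul (ha x0 hF) (hη.2 x0).2 (hη.2 x0).1.le hε
          _ = ε := mul_one ε
      · intro x hx
        have hx' := Finset.mem_filter.1 hx
        have hne : x ≠ x0 := by
          intro he
          exact hF (he ▸ hx'.1)
        rw [hother x hx'.2 hne, mul_zero]
  · rw [hv a, Finset.sum_eq_zero]
    · rw [sub_zero, abs_zero]
      exact hε
    · intro x hx
      rw [hi x (Finset.mem_filter.1 hx).2, mul_zero]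

/-- shifting the start of the branch changes the indicator at finitely many nodes only -/
theorem inx_ind_eq (y : ℕ → Bool) (n : ℕ) (t : T) (ht : ∀ m < n, t ≠ nd y m) :
    ind y 0 t = ind y n t := by
  unfold ind
  by_cases h : t = nd y t.length
  · have hn : n ≤ t.length := by
      by_contra hlt
      exact ht _ (not_le.1 hlt) h
    rw [if_pos ⟨Nat.zero_le _, h⟩, if_pos ⟨hn, h⟩]
  · rw [if_neg (fun h' => h h'.2), if_neg (fun h' => h h'.2)]

open Classical in
theorem inx_split {Γ : Type} {r : Γ → ℕ → Bool} {η : Γ → ℝ} {G₀ G₁ : Set Γ} {f g : Γ → ℕ}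
    (hd : Disjoint G₀ G₁) (a : Γ → ℝ) (ha : ∀ x, x ∉ G₀ ∪ G₁ → a x = 0) (F : Finset Γ) (t : T)
    (ht : ∀ x ∈ F, ∀ m < max (f x) (g x), t ≠ nd (r x) m) :
    ∑ x ∈ F, a x * η x * ind (r x) 0 t =
      (∑ x ∈ F with x ∈ G₀, a x * η x * ind (r x) (f x) t) +
        ∑ x ∈ F with x ∈ G₁, a x * η x * ind (r x) (g x) t := by
  rw [Finset.sum_filter, Finset.sum_filter, ← Finset.sum_add_distrib]
  refine Finset.sum_congr rfl fun x hx => ?_
  by_cases h0 : x ∈ G₀
  · have h1 : x ∉ G₁ := fun h1 => Set.disjoint_left.1 hd h0 h1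
    rw [if_pos h0, if_neg h1, add_zero,
      inx_ind_eq (r x) (f x) t fun m hm => ht x hx m (lt_of_lt_of_le hm (le_max_left _ _))]
  · by_cases h1 : x ∈ G₁
    · rw [if_neg h0, if_pos h1, zero_add,
        inx_ind_eq (r x) (g x) t fun m hm => ht x hx m (lt_of_lt_of_le hm (le_max_right _ _))]
    · have h2 : a x = 0 := ha x (by
        rintro (h | h)
        · exact h0 h
        · exact h1 h)
      rw [if_neg h0, if_neg h1, h2, zero_mul, zero_mul, add_zero]

open Classical in
theorem st_INX (hSVAL : ST_SVAL) : ST_INX := by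
  intro Γ r η hη G₀ G₁ f g hd hS0 hS1 a b ha hb
  have hcl : ((a, b) : Amb Γ) ∈ closure
      ((Submodule.span ℝ (range (U r η) ∪ range (Dl Γ)) : Submodule ℝ (Amb Γ)) : Set (Amb Γ)) := by
    rw [Metric.mem_closure_iff]
    intro e he
    obtain ⟨ε, hε, hεe⟩ : ∃ ε : ℝ, 0 < ε ∧ 3 * ε < e := ⟨e / 6, by linarith, by linarith⟩
    -- finite part of `a`
    have hsum : HasSum (fun x => lp.single 2 x (a x)) a := lp.hasSum_single (by simp) a
    obtain ⟨F, hF⟩ := ((Metric.tendsto_nhds.1 hsum) ε hε).exists
    have hF' : ‖a - ∑ x ∈ F, lp.single 2 x (a x)‖ < ε := by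
      rw [← dist_eq_norm, dist_comm]
      exact hF
    have hout : ∀ x, x ∉ F → |a x| ≤ ε := by
      intro x hx
      have h1 := lp.norm_apply_le_norm (by simp : (2 : ENNReal) ≠ 0)
        (a - ∑ x ∈ F, lp.single 2 x (a x)) x
      have h2 : (a - ∑ x ∈ F, lp.single 2 x (a x) : E2 Γ) x = a x := by
        rw [lp.coeFn_sub, Pi.sub_apply, lp.coeFn_sum, Finset.sum_apply, Finset.sum_eq_zero,
          sub_zero]
        intro y hy
        have hne : x ≠ y := by
          intro hxy
          rw [hxy] at hx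
          exact hx hy
        exact lp.single_apply_ne (E := fun _ : Γ => ℝ) 2 y (a y) hne
      rw [h2] at h1
      exact (h1.trans hF'.le)
    -- exceptional nodes
    set E₁ : Finset T := F.biUnion fun x => (Finset.range (max (f x) (g x))).image (nd (r x))
      with hE₁
    have hE1 : ∀ t, t ∉ E₁ → ∀ x ∈ F, ∀ m < max (f x) (g x), t ≠ nd (r x) m := by
      intro t ht x hx m hm h
      apply ht
      rw [hE₁, Finset.mem_biUnion]
      exact ⟨x, hx, Finset.mem_image.2 ⟨m, Finset.mem_range.2 hm, h.symm⟩⟩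
    have hnull : {t | ¬ |b t - SS r η G₀ G₁ f g a t| < ε}.Finite := by
      have h1 := (Metric.tendsto_nhds.1 hb) ε hε
      have h2 := Filter.eventually_cofinite.1 h1
      refine h2.subset fun t ht h3 => ht ?_
      rw [Real.dist_eq, sub_zero] at h3
      exact h3
    set E : Finset T := E₁ ∪ hnull.toFinset with hE
    -- the combination of branches
    set c : T → ℝ := fun t => ∑ x ∈ F, a x * η x * ind (r x) 0 t with hc
    have hclose : ∀ t, t ∉ E → |b t - c t| ≤ 3 * ε := by
      intro t ht
      rw [hE, Finset.mem_union, not_or] at ht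
      have h1 : |b t - SS r η G₀ G₁ f g a t| < ε := by
        by_contra h
        exact ht.2 (hnull.mem_toFinset.2 h)
      have h2 : c t = _ := inx_split (η := η) hd a ha F t (hE1 t ht.1)
      have h3 := inx_block hSVAL hη hS0 a F hε.le hout t
      have h4 := inx_block hSVAL hη hS1 a F hε.le hout t
      unfold SS at h1
      rw [h2]
      rw [abs_lt] at h1
      rw [abs_le] at h3 h4 ⊢
      constructor <;> linarith [h1.1, h1.2, h3.1, h3.2, h4.1, h4.2]
    refine ⟨∑ x ∈ F, a x • U r η x + ∑ t ∈ E, (b t - c t) • Dl Γ t, ?_, ?_⟩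
    · refine Submodule.add_mem _ (Submodule.sum_mem _ fun x _ => Submodule.smul_mem _ _ ?_)
        (Submodule.sum_mem _ fun t _ => Submodule.smul_mem _ _ ?_)
      · exact Submodule.subset_span (Or.inl ⟨x, rfl⟩)
      · exact Submodule.subset_span (Or.inr ⟨t, rfl⟩)
    · have hfst : (∑ x ∈ F, a x • U r η x + ∑ t ∈ E, (b t - c t) • Dl Γ t).1 =
          ∑ x ∈ F, lp.single 2 x (a x) := by
        rw [Prod.fst_add, Prod.fst_sum, Prod.fst_sum]
        have h1 : ∑ t ∈ E, ((b t - c t) • Dl Γ t).1 = 0 :=
          Finset.sum_eq_zero fun t _ => by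
            rw [Prod.smul_fst]
            unfold Dl
            exact smul_zero _
        rw [h1, add_zero]
        refine Finset.sum_congr rfl fun x _ => ?_
        rw [Prod.smul_fst]
        unfold U
        show a x • lp.single (E := fun _ : Γ => ℝ) 2 x (1 : ℝ) =
          lp.single (E := fun _ : Γ => ℝ) 2 x (a x)
        rw [← lp.single_smul, smul_eq_mul, mul_one]
      have hsnd : ∀ s : T, (∑ x ∈ F, a x • U r η x + ∑ t ∈ E, (b t - c t) • Dl Γ t).2 s =
          c s + if s ∈ E then b s - c s else 0 := by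
        intro s
        rw [Prod.snd_add, Prod.snd_sum, Prod.snd_sum, lp.coeFn_add, Pi.add_apply, lp.coeFn_sum,
          lp.coeFn_sum, Finset.sum_apply, Finset.sum_apply]
        congr 1
        · rw [hc]
          refine Finset.sum_congr rfl fun x _ => ?_
          show a x * (η x * ind (r x) 0 s) = a x * η x * ind (r x) 0 s
          rw [mul_assoc]
        · have h1 : ∀ t ∈ E, ((b t - c t) • Dl Γ t).2 s =
              if s = t then (b t - c t) else 0 := by
            intro t _
            show (b t - c t) * (lp.single ⊤ t (1 : ℝ) : Ei) s = _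
            by_cases hst : s = t
            · subst hst
              rw [lp.single_apply_self, mul_one, if_pos rfl]
            · rw [lp.single_apply_ne _ _ _ hst, mul_zero, if_neg hst]
          rw [Finset.sum_congr rfl h1, Finset.sum_ite_eq]
      rw [dist_eq_norm, Prod.norm_def]
      refine max_lt ?_ ?_
      · rw [Prod.fst_sub, hfst]
        show ‖a - ∑ x ∈ F, lp.single 2 x (a x)‖ < e
        linarith [hF']
      · refine lt_of_le_of_lt (lp.norm_le_of_forall_le (by linarith : (0 : ℝ) ≤ 3 * ε) ?_) hεe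
        intro s
        rw [Prod.snd_sub, lp.coeFn_sub, Pi.sub_apply, hsnd s, Real.norm_eq_abs]
        show |b s - _| ≤ _
        by_cases hs : s ∈ E
        · rw [if_pos hs]
          have h0 : b s - (c s + (b s - c s)) = 0 := by ring
          rw [h0, abs_zero]
          linarith
        · rw [if_neg hs, add_zero]
          exact hclose s hs
  exact hcl

end

end Pool.Agent.Helper86.TK
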