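import Pool.Agent.Helper86.TK.Defs

/-!
# MP_5c2ead_an, module WK
-/

set_option autoImplicit false

open Set Filter Topology

namespace Pool.Agent.Helper86.TK

noncomputable section

theorem wk_S_sub (h : ST_SVAL) {Γ : Type} {r : Γ → ℕ → Bool} {η : Γ → ℝ} {G : Set Γ}
    {f : Γ → ℕ} (hS : Sep r G f) (a b : Γ → ℝ) (t : T) :
    S r η G f (fun x => a x - b x) t = S r η G f a t - S r η G f b t := by
  rcases h Γ r η G f hS t with ⟨x0, -, -, hv⟩ | ⟨-, hv⟩
  · rw [hv, hv, hv]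
    ring
  · rw [hv, hv, hv, sub_zero]

theorem wk_SS_sub (h : ST_SVAL) {Γ : Type} {r : Γ → ℕ → Bool} {η : Γ → ℝ} {G₀ G₁ : Set Γ}
    {f g : Γ → ℕ} (hS0 : Sep r G₀ f) (hS1 : Sep r G₁ g) (a b : Γ → ℝ) (t : T) :
    SS r η G₀ G₁ f g (fun x => a x - b x) t =
      SS r η G₀ G₁ f g a t - SS r η G₀ G₁ f g b t := by
  unfold SS
  rw [wk_S_sub h hS0, wk_S_sub h hS1]
  ring

theorem wk_S_zero (h : ST_SVAL) {Γ : Type} {r : Γ → ℕ → Bool} {η : Γ → ℝ} {G : Set Γ}
    {f : Γ → ℕ} (hS : Sep r G f) (a : Γ → ℝ) (ha : ∀ x, a x = 0) (t : T) :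
    S r η G f a t = 0 := by
  rcases h Γ r η G f hS t with ⟨x0, -, -, hv⟩ | ⟨-, hv⟩
  · rw [hv, ha, zero_mul]
  · exact hv a

theorem wk_S_tendsto (h : ST_SVAL) {Γ : Type} {r : Γ → ℕ → Bool} {η : Γ → ℝ} {G : Set Γ}
    {f : Γ → ℕ} (hS : Sep r G f) {ι : Type} {l : Filter ι} {A : ι → Γ → ℝ} {α : Γ → ℝ}
    (hA : ∀ x, Tendsto (fun i => A i x) l (𝓝 (α x))) (t : T) :
    Tendsto (fun i => S r η G f (A i) t) l (𝓝 (S r η G f α t)) := by
  rcases h Γ r η G f hS t with ⟨x0, -, -, hv⟩ | ⟨-, hv⟩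
  · simp only [hv]
    exact (hA x0).mul_const _
  · simp only [hv]
    exact tendsto_const_nhds

theorem wk_two : (2 : ENNReal).toReal = 2 := by norm_num

theorem st_WK (hSVAL : ST_SVAL) (hINX : ST_INX) (hFL2 : ST_FL2) (hFC0 : ST_FC0) : ST_WK := by
  intro Γ r η hη G₀ G₁ f g hd hS0 hS1 C hC hCn hCb R hR
  unfold WCpt
  rw [isCompact_iff_ultrafilter_le_nhds]
  intro 𝒰 h𝒰
  set Q : Set (XX r η) := {q : XX r η | (∀ x, x ∉ G₀ ∪ G₁ → q.1.1 x = 0) ∧ ‖q.1.1‖ ≤ 1 ∧ ‖q‖ ≤ R ∧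
      (fun t => q.1.2 t - SS r η G₀ G₁ f g q.1.1 t) ∈ C} with hQdef
  set V : Ultrafilter (XX r η) := 𝒰.map (toWeakSpace ℝ (XX r η)).symm with hV
  have hQ : Q ∈ V := by
    rw [hV, Ultrafilter.mem_map]
    refine Filter.mem_of_superset (le_principal_iff.1 h𝒰) ?_
    rintro _ ⟨q, hq, rfl⟩
    exact hq
  have hVQ : ∀ᶠ q in (V : Filter (XX r η)), q ∈ Q := hQ
  -- limits of the coordinates
  have hex : ∀ x, ∃ y, Tendsto (fun q : XX r η => q.1.1 x) (V : Filter (XX r η)) (𝓝 y) := by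
    intro x
    obtain ⟨y, -, hy⟩ := (isCompact_iff_ultrafilter_le_nhds.1
      (isCompact_Icc : IsCompact (Set.Icc (-1 : ℝ) 1)))
      (V.map (fun q : XX r η => q.1.1 x)) (by
        rw [le_principal_iff, Ultrafilter.coe_map, Filter.mem_map]
        refine Filter.mem_of_superset hQ fun q hq => ?_
        have h1 := lp.norm_apply_le_norm (by norm_num : (2 : ENNReal) ≠ 0) q.1.1 x
        have h2 := h1.trans hq.2.1
        rw [Real.norm_eq_abs, abs_le] at h2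
        exact h2)
    exact ⟨y, hy⟩
  choose α hα using hex
  obtain ⟨γ, hγC, hγ⟩ := (isCompact_iff_ultrafilter_le_nhds.1 hC)
    (V.map (fun (q : XX r η) t => q.1.2 t - SS r η G₀ G₁ f g q.1.1 t)) (by
      rw [le_principal_iff, Ultrafilter.coe_map, Filter.mem_map]
      exact Filter.mem_of_superset hQ fun q hq => hq.2.2.2)
  have hγ' : ∀ t, Tendsto (fun q : XX r η => q.1.2 t - SS r η G₀ G₁ f g q.1.1 t)
      (V : Filter (XX r η)) (𝓝 (γ t)) := tendsto_pi_nhds.1 hγ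
  -- the limit is in `ℓ²`
  have hαsum : ∀ s : Finset Γ, ∑ x ∈ s, ‖α x‖ ^ (2 : ENNReal).toReal ≤ 1 := by
    intro s
    refine le_of_tendsto (f := fun q : XX r η => ∑ x ∈ s, ‖q.1.1 x‖ ^ (2 : ENNReal).toReal)
      (x := (V : Filter (XX r η))) ?_ ?_
    · refine tendsto_finsetSum _ fun x _ => ?_
      exact ((hα x).norm).rpow_const (Or.inr (by rw [wk_two]; norm_num))
    · filter_upwards [hVQ] with q hq
      calc ∑ x ∈ s, ‖q.1.1 x‖ ^ (2 : ENNReal).toReal ≤ ‖q.1.1‖ ^ (2 : ENNReal).toReal :=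
            lp.sum_rpow_le_norm_rpow (by rw [wk_two]; norm_num) q.1.1 s
        _ ≤ 1 := Real.rpow_le_one (norm_nonneg _) hq.2.1 (by rw [wk_two]; norm_num)
  let αE : E2 Γ := ⟨α, memℓp_gen' (C := 1) hαsum⟩
  have hαn : ‖αE‖ ≤ 1 := by
    refine lp.norm_le_of_forall_sum_le (by rw [wk_two]; norm_num) zero_le_one fun s => ?_
    rw [Real.one_rpow]
    exact hαsum s
  have hα0 : ∀ x, x ∉ G₀ ∪ G₁ → α x = 0 := by
    intro x hx
    refine tendsto_nhds_unique (hα x) ?_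
    refine tendsto_const_nhds.congr' ?_
    filter_upwards [hVQ] with q hq
    exact (hq.1 x hx).symm
  -- the second coordinate
  have hSSt : ∀ t, Tendsto (fun q : XX r η => SS r η G₀ G₁ f g q.1.1 t) (V : Filter (XX r η))
      (𝓝 (SS r η G₀ G₁ f g α t)) := by
    intro t
    unfold SS
    exact (wk_S_tendsto hSVAL hS0 hα t).add (wk_S_tendsto hSVAL hS1 hα t)
  set β : T → ℝ := fun t => SS r η G₀ G₁ f g α t + γ t with hβ
  have hβt : ∀ t, Tendsto (fun q : XX r η => q.1.2 t) (V : Filter (XX r η)) (𝓝 (β t)) := by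
    intro t
    refine ((hSSt t).add (hγ' t)).congr fun q => ?_
    ring
  have hqn : ∀ (q : XX r η) (t : T), ‖q.1.2 t‖ ≤ ‖q‖ := by
    intro q t
    refine (lp.norm_apply_le_norm ENNReal.top_ne_zero q.1.2 t).trans ?_
    exact norm_snd_le q.1
  have hβn : ∀ t, ‖β t‖ ≤ R := by
    intro t
    refine le_of_tendsto (hβt t).norm ?_
    filter_upwards [hVQ] with q hq
    exact (hqn q t).trans hq.2.2.1
  let βE : Ei := ⟨β, memℓp_infty ⟨R, by rintro _ ⟨t, rfl⟩; exact hβn t⟩⟩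
  have hmem : ((αE, βE) : Amb Γ) ∈ XX r η := by
    refine hINX Γ r η hη G₀ G₁ f g hd hS0 hS1 αE βE hα0 ?_
    have h1 : (fun t => βE t - SS r η G₀ G₁ f g αE t) = γ := by
      funext t
      show β t - SS r η G₀ G₁ f g α t = γ t
      rw [hβ]
      ring
    rw [h1]
    exact hCn γ hγC
  let q0 : XX r η := ⟨(αE, βE), hmem⟩
  have hc0 : (fun t => q0.1.2 t - SS r η G₀ G₁ f g q0.1.1 t) = γ := by
    funext t
    show β t - SS r η G₀ G₁ f g α t = γ t
    rw [hβ]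
    ring
  have hq0 : q0 ∈ Q := by
    refine ⟨hα0, hαn, ?_, ?_⟩
    · show ‖((αE, βE) : Amb Γ)‖ ≤ R
      rw [Prod.norm_def]
      exact max_le (hαn.trans hR) (lp.norm_le_of_forall_le (by linarith) hβn)
    · rw [hc0]
      exact hγC
  refine ⟨toWeakSpace ℝ (XX r η) q0, ⟨q0, hq0, rfl⟩, ?_⟩
  -- weak convergence
  have key : ∀ φ : StrongDual ℝ (XX r η),
      Tendsto (fun q : XX r η => φ q) (V : Filter (XX r η)) (𝓝 (φ q0)) := by
    intro φ
    rw [Metric.tendsto_nhds]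
    intro e he
    have he3 : (0 : ℝ) < e / 3 := by linarith
    obtain ⟨F, δ, hδ, hF⟩ := hFL2 Γ r η hη G₀ G₁ f g hd hS0 hS1 φ (e / 3) he3
    obtain ⟨F', δ', hδ', hF'⟩ := hFC0 Γ r η hη φ (e / 3) he3
    have ev1 : ∀ᶠ q in (V : Filter (XX r η)), ∀ x ∈ F, |q.1.1 x - α x| ≤ δ := by
      rw [Filter.eventually_all_finset]
      intro x _
      filter_upwards [(Metric.tendsto_nhds.1 (hα x)) δ hδ] with q hq
      rw [Real.dist_eq] at hq
      exact hq.le
    have ev2 : ∀ᶠ q in (V : Filter (XX r η)), ∀ t ∈ F',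
        |(q.1.2 t - SS r η G₀ G₁ f g q.1.1 t) - γ t| ≤ δ' := by
      rw [Filter.eventually_all_finset]
      intro t _
      filter_upwards [(Metric.tendsto_nhds.1 (hγ' t)) δ' hδ'] with q hq
      rw [Real.dist_eq] at hq
      exact hq.le
    filter_upwards [hVQ, ev1, ev2] with q hq h1 h2
    -- the `c_0` part
    let d : T → ℝ := fun t => (q.1.2 t - SS r η G₀ G₁ f g q.1.1 t) - γ t
    have hd6 : ∀ t, |d t| ≤ 6 := by
      intro t
      have a1 := hCb _ hq.2.2.2 t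
      have a2 := hCb γ hγC t
      rw [abs_le] at a1 a2 ⊢
      constructor <;> linarith [a1.1, a1.2, a2.1, a2.2,
        (rfl : d t = (q.1.2 t - SS r η G₀ G₁ f g q.1.1 t) - γ t)]
    let dE : Ei := ⟨d, memℓp_infty ⟨6, by rintro _ ⟨t, rfl⟩; exact hd6 t⟩⟩
    have hdmem : ((0, dE) : Amb Γ) ∈ XX r η := by
      refine hINX Γ r η hη G₀ G₁ f g hd hS0 hS1 0 dE (fun x _ => rfl) ?_
      have h3 : (fun t => dE t - SS r η G₀ G₁ f g (0 : E2 Γ) t) = d := by
        funext t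
        have z0 : S r η G₀ f (0 : E2 Γ) t = 0 := wk_S_zero hSVAL hS0 _ (fun x => rfl) t
        have z1 : S r η G₁ g (0 : E2 Γ) t = 0 := wk_S_zero hSVAL hS1 _ (fun x => rfl) t
        have h4 : SS r η G₀ G₁ f g (0 : E2 Γ) t = 0 := by
          show S r η G₀ f (0 : E2 Γ) t + S r η G₁ g (0 : E2 Γ) t = 0
          rw [z0, z1, add_zero]
        rw [h4, sub_zero]
      rw [h3]
      have h5 : Tendsto d cofinite (𝓝 (0 - 0)) :=
        Filter.Tendsto.sub (hCn _ hq.2.2.2) (hCn γ hγC)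
      rw [sub_zero] at h5
      exact h5
    let p2 : XX r η := ⟨(0, dE), hdmem⟩
    let p1 : XX r η := (q - q0) - p2
    have hp11 : ∀ x, p1.1.1 x = q.1.1 x - α x := by
      intro x
      show (q.1.1 x - α x) - 0 = q.1.1 x - α x
      rw [sub_zero]
    have hp1n : ‖p1.1.1‖ ≤ 2 := by
      have h3 : p1.1.1 = q.1.1 - αE := by
        show (q.1.1 - αE) - 0 = q.1.1 - αE
        rw [sub_zero]
      rw [h3]
      refine (norm_sub_le _ _).trans ?_
      linarith [hq.2.1, hαn]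
    have b1 : |φ p1| ≤ e / 3 := by
      refine hF p1 hp1n ?_ ?_ ?_
      · intro x hx
        rw [hp11, hq.1 x hx, hα0 x hx, sub_zero]
      · intro x hx
        rw [hp11]
        exact h1 x hx
      · intro t
        have h3 : (fun x => p1.1.1 x) = fun x => q.1.1 x - α x := funext hp11
        have h4 : SS r η G₀ G₁ f g p1.1.1 t =
            SS r η G₀ G₁ f g q.1.1 t - SS r η G₀ G₁ f g α t := by
          rw [← wk_SS_sub hSVAL hS0 hS1]
          exact congrArg (fun a => SS r η G₀ G₁ f g a t) h3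
        rw [h4]
        show (q.1.2 t - β t) - d t = _
        have h5 : d t = (q.1.2 t - SS r η G₀ G₁ f g q.1.1 t) - γ t := rfl
        rw [h5, hβ]
        ring
    have b2 : |φ p2| ≤ e / 3 := hF' p2 rfl hd6 h2
    have hsum : φ q - φ q0 = φ p1 + φ p2 := by
      show φ q - φ q0 = φ ((q - q0) - p2) + φ p2
      rw [map_sub, map_sub]
      ring
    rw [Real.dist_eq, hsum]
    exact lt_of_le_of_lt (abs_add_le _ _) (by linarith)
  -- conclusion
  have h𝒰V : (𝒰 : Filter (WeakSpace ℝ (XX r η))) =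
      Filter.map (toWeakSpace ℝ (XX r η)) (V : Filter (XX r η)) := by
    rw [hV, Ultrafilter.coe_map, Filter.map_map]
    exact Filter.map_id.symm
  rw [h𝒰V]
  have hgoal : Tendsto (fun q : XX r η => toWeakSpace ℝ (XX r η) q) (V : Filter (XX r η))
      (𝓝 (toWeakSpace ℝ (XX r η) q0)) := by
    have hind : Topology.IsInducing (fun (x : WeakSpace ℝ (XX r η)) (φ : StrongDual ℝ (XX r η)) =>
        φ ((toWeakSpace ℝ (XX r η)).symm x)) := ⟨rfl⟩
    rw [hind.tendsto_nhds_iff, tendsto_pi_nhds]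
    intro φ
    exact key φ
  exact hgoal

end

end Pool.Agent.Helper86.TK
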